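import Pool.Agent.N290.RK.Stm

/-!
# Project RK (helper290), part R1: regularisation of slowly varying functions (helper250)
-/

set_option autoImplicit false

open Complex MeasureTheory Set Filter Topology
open scoped ENNReal

namespace Pool.Agent.N250.RK

open Pool.Agent.N290.RJ Pool.Agent.N290.RK

/-- the average over `[t, 2 t]` -/
noncomputable def av (w : ℝ → ℝ) (t : ℝ) : ℝ := ∫ s in (1 : ℝ)..2, w (t * s)

variable {w : ℝ → ℝ}

theorem av_int (hw : Monotone w) (a b : ℝ) : IntervalIntegrable w volume a b :=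
  hw.intervalIntegrable

theorem mono_comp (hw : Monotone w) (t : ℝ) (ht : 0 ≤ t) : Monotone fun s => w (t * s) :=
  fun _ _ h => hw (mul_le_mul_of_nonneg_left h ht)

theorem comp_int (hw : Monotone w) (t : ℝ) (a b : ℝ) :
    IntervalIntegrable (fun s => w (t * s)) volume a b := by
  rcases le_total 0 t with ht | ht
  · exact (mono_comp hw t ht).intervalIntegrable
  · have : Antitone fun s => w (t * s) := fun _ _ h => hw (mul_le_mul_of_nonpos_left h ht)
    exact this.intervalIntegrable

theorem av_mono (hw : Monotone w) : Monotone (av w) := by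
  intro t t' h
  unfold av
  refine intervalIntegral.integral_mono_on (by norm_num) (comp_int hw t _ _) (comp_int hw t' _ _)
    fun s hs => ?_
  exact hw (mul_le_mul_of_nonneg_right h (by linarith [hs.1]))

theorem av_lower (hw : Monotone w) (t : ℝ) (ht : 0 ≤ t) : w t ≤ av w t := by
  have h := intervalIntegral.integral_mono_on (μ := volume) (a := 1) (b := 2)
    (f := fun _ => w t) (g := fun s => w (t * s)) (by norm_num) (by simp) (comp_int hw t _ _)
    fun s hs => hw (by nlinarith [hs.1])
  rw [intervalIntegral.integral_const] at h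
  have e : (2 - 1 : ℝ) • w t = w t := by norm_num
  rw [e] at h
  exact h

theorem av_upper (hw : Monotone w) (t : ℝ) (ht : 0 ≤ t) : av w t ≤ w (2 * t) := by
  have h := intervalIntegral.integral_mono_on (μ := volume) (a := 1) (b := 2)
    (f := fun s => w (t * s)) (g := fun _ => w (2 * t)) (by norm_num) (comp_int hw t _ _) (by simp)
    fun s hs => hw (by nlinarith [hs.2])
  rw [intervalIntegral.integral_const] at h
  have e : (2 - 1 : ℝ) • w (2 * t) = w (2 * t) := by norm_num
  rw [e] at h
  exact h

/-- the primitive -/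
noncomputable def pr (w : ℝ → ℝ) (x : ℝ) : ℝ := ∫ s in (0 : ℝ)..x, w s

theorem av_eq (hw : Monotone w) (t : ℝ) (ht : 0 < t) :
    av w t = t⁻¹ * (pr w (2 * t) - pr w t) := by
  unfold av pr
  rw [intervalIntegral.integral_comp_mul_left _ ht.ne', intervalIntegral.integral_interval_sub_left
    (av_int hw _ _) (av_int hw _ _), smul_eq_mul, mul_one, mul_comm t 2]

theorem pr_cont (hw : Monotone w) : Continuous (pr w) :=
  intervalIntegral.continuous_primitive (fun a b => av_int hw a b) 0

theorem av_cont (hw : Monotone w) : ContinuousOn (av w) (Ioi 0) := by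
  have h : ContinuousOn (fun t : ℝ => t⁻¹ * (pr w (2 * t) - pr w t)) (Ioi 0) := by
    refine ContinuousOn.mul (continuousOn_id.inv₀ fun t ht => (ne_of_gt ht)) ?_
    exact (((pr_cont hw).comp (continuous_const.mul continuous_id)).sub (pr_cont hw)).continuousOn
  exact h.congr fun t ht => av_eq hw t ht

theorem pr_deriv (hw : Monotone w) (hc : ContinuousOn w (Ioi 0)) (x : ℝ) (hx : 0 < x) :
    HasDerivAt (pr w) (w x) x := by
  refine intervalIntegral.integral_hasDerivAt_right (av_int hw _ _) ?_
    (hc.continuousAt (Ioi_mem_nhds hx))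
  exact hw.measurable.stronglyMeasurable.stronglyMeasurableAtFilter

theorem av_deriv (hw : Monotone w) (hc : ContinuousOn w (Ioi 0)) (t : ℝ) (ht : 0 < t) :
    HasDerivAt (av w) (t⁻¹ * (2 * w (2 * t) - w t - av w t)) t := by
  have h1 : HasDerivAt (fun t : ℝ => pr w (2 * t)) (w (2 * t) * 2) t := by
    have h2 := pr_deriv hw hc (2 * t) (by linarith)
    have h3 : HasDerivAt (fun t : ℝ => 2 * t) 2 t := by
      simpa using (hasDerivAt_id t).const_mul (2 : ℝ)
    exact h2.comp t h3
  have h2 := pr_deriv hw hc t ht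
  have h3 := (hasDerivAt_inv ht.ne').mul (h1.sub h2)
  have h4 : HasDerivAt (fun t : ℝ => t⁻¹ * (pr w (2 * t) - pr w t))
      (t⁻¹ * (2 * w (2 * t) - w t - av w t)) t := by
    refine h3.congr_deriv ?_
    rw [av_eq hw t ht]
    simp only [Pi.sub_apply]
    field_simp
    ring
  refine h4.congr_of_eventuallyEq ?_
  filter_upwards [Ioi_mem_nhds ht] with s hs
  exact av_eq hw s hs

theorem av_c1 (hw : Monotone w) (hc : ContinuousOn w (Ioi 0)) :
    ContDiffOn ℝ 1 (av w) (Ioi 0) := by
  rw [show (1 : WithTop ℕ∞) = 0 + 1 from (zero_add 1).symm,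
    contDiffOn_succ_iff_deriv_of_isOpen isOpen_Ioi]
  refine ⟨fun t ht => (av_deriv hw hc t ht).differentiableAt.differentiableWithinAt, by simp, ?_⟩
  rw [contDiffOn_zero]
  have h : ContinuousOn (fun t : ℝ => t⁻¹ * (2 * w (2 * t) - w t - av w t)) (Ioi 0) := by
    refine ContinuousOn.mul (continuousOn_id.inv₀ fun t ht => (ne_of_gt ht)) ?_
    refine ContinuousOn.sub (ContinuousOn.sub ?_ hc) (av_cont hw)
    refine continuousOn_const.mul (hc.comp (continuous_const.mul continuous_id).continuousOn ?_)
    intro t ht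
    have : 0 < t := ht
    show 0 < 2 * t
    linarith
  exact h.congr fun t ht => (av_deriv hw hc t ht).deriv

theorem R1_proof : Pool.Agent.N290.RK.R1 := by
  intro K hK
  refine ⟨4 * K, by linarith, fun ω hω => ?_⟩
  obtain ⟨hm, hb, hs⟩ := hω
  have hw : Monotone fun t => ω (min t 1) := fun _ _ h => hm (min_le_min_right 1 h)
  have h1 := av_mono hw
  have hc1 := av_cont hw
  refine ⟨av (av fun t => ω (min t 1)), av_c1 h1 hc1, fun s t _ h => av_mono h1 h, ?_⟩
  have key : ∀ t, 0 < t → t ≤ 1 → ω t ≤ av (av fun t => ω (min t 1)) t ∧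
      av (fun t => ω (min t 1)) (2 * t) ≤ 2 * K * ω t := by
    intro t ht ht1
    constructor
    · have h2 := av_lower hw t ht.le
      have h3 := av_lower h1 t ht.le
      have h4 : ω (min t 1) = ω t := by rw [min_eq_left ht1]
      rw [← h4]
      exact h2.trans h3
    · have h2 := av_upper hw (2 * t) (by linarith)
      refine h2.trans ?_
      show ω (min (2 * (2 * t)) 1) ≤ 2 * K * ω t
      have h3 := hs (min (2 * (2 * t)) 1) t ht (le_min (by linarith) ht1) (min_le_right _ _)
      have h4 : (min (2 * (2 * t)) 1 / t) ^ (1 / 8 : ℝ) ≤ 2 := by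
        have h5 : min (2 * (2 * t)) 1 / t ≤ 4 := by
          rw [div_le_iff₀ ht]
          exact (min_le_left _ _).trans (by linarith)
        have h6 : 0 ≤ min (2 * (2 * t)) 1 / t :=
          div_nonneg (le_min (by linarith) zero_le_one) ht.le
        calc (min (2 * (2 * t)) 1 / t) ^ (1 / 8 : ℝ) ≤ (4 : ℝ) ^ (1 / 8 : ℝ) :=
              Real.rpow_le_rpow h6 h5 (by norm_num)
          _ ≤ (4 : ℝ) ^ (1 / 2 : ℝ) := Real.rpow_le_rpow_of_exponent_le (by norm_num) (by norm_num)
          _ = 2 := by
            rw [← Real.sqrt_eq_rpow, show (4 : ℝ) = 2 ^ 2 by norm_num]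
            exact Real.sqrt_sq (by norm_num)
      have h7 : 0 ≤ ω t := (hb t).1
      calc ω (min (2 * (2 * t)) 1) ≤ K * (min (2 * (2 * t)) 1 / t) ^ (1 / 8 : ℝ) * ω t := h3
        _ ≤ K * 2 * ω t := by
            refine mul_le_mul_of_nonneg_right ?_ h7
            exact mul_le_mul_of_nonneg_left h4 (by linarith)
        _ = 2 * K * ω t := by ring
  refine ⟨fun t ht ht1 => ?_, fun t ht ht1 => ?_⟩
  · obtain ⟨k1, k2⟩ := key t ht ht1
    refine ⟨k1, ?_⟩
    have h2 := av_upper h1 t ht.le
    have h3 : 0 ≤ K * ω t := mul_nonneg (by linarith) (hb t).1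
    linarith
  · obtain ⟨k1, k2⟩ := key t ht ht1
    rw [(av_deriv h1 hc1 t ht).deriv, ← mul_assoc, mul_inv_cancel₀ ht.ne', one_mul]
    have h2 := av_upper h1 t ht.le
    have h3 := av_lower h1 t ht.le
    have h4 : 0 ≤ ω t := (hb t).1
    have h5 : 0 ≤ av (fun t => ω (min t 1)) t :=
      le_trans (hb _).1 (av_lower hw t ht.le)
    have h6 : 2 * K * ω t ≤ 2 * K * av (av fun t => ω (min t 1)) t :=
      mul_le_mul_of_nonneg_left k1 (by linarith)
    rw [abs_le]
    constructor
    · have h7 : 0 ≤ 4 * K * av (av fun t => ω (min t 1)) t := by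
        have : 0 ≤ av (av fun t => ω (min t 1)) t := h4.trans k1
        positivity
      linarith
    · have h8 : 0 ≤ av (av fun t => ω (min t 1)) t := h4.trans k1
      linarith

end Pool.Agent.N250.RK
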